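import Pool.Agent.Helper13.JS.St

set_option autoImplicit false

namespace Pool.Agent.Helper98.JS

open Finset ArithmeticFunction Pool.Agent.Helper13.JS
open Pool.Agent.Helper13.JC (Cov E1 offSum)

theorem FS_ms_mono (E : Finset ℕ) (u v v' : ℝ) (h : v ≤ v') : ms E u v ≤ ms E u v' := by
  unfold ms
  refine Finset.sum_le_sum_of_subset_of_nonneg ?_ ?_
  · intro p hp
    rw [Finset.mem_filter] at hp ⊢
    exact ⟨hp.1, hp.2.1, le_trans hp.2.2 h⟩
  · intro p _ _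
    positivity

theorem FS_ms_on (x : ℕ) (a : ℕ → ℤ) (b : ℕ) (u w : ℝ) (hw : w ≤ x) (hw0 : 0 ≤ w) :
    ms (On x (fun p => a p - b)) u w = onSum a b u w := by
  classical
  unfold ms onSum On
  refine Finset.sum_congr ?_ (fun _ _ => rfl)
  ext p
  simp only [Finset.mem_filter, Finset.mem_Icc]
  have hmod : ((p : ℤ) ∣ a p - (b : ℤ)) ↔ a p ≡ (b : ℤ) [ZMOD (p : ℤ)] := by
    rw [Int.modEq_iff_dvd, dvd_sub_comm]
  rw [hmod]
  constructor
  · rintro ⟨⟨⟨h1, _⟩, h3, h4⟩, h5, h6⟩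
    exact ⟨⟨h1, Nat.le_floor h6⟩, h3, h5, h4⟩
  · rintro ⟨⟨h1, h2⟩, h3, h5, h4⟩
    have h6 : (p : ℝ) ≤ w := (Nat.le_floor_iff hw0).1 h2
    have h7 : p ≤ x := by
      have : (p : ℝ) ≤ x := le_trans h6 hw
      exact_mod_cast this
    exact ⟨⟨⟨h1, h7⟩, h3, h4⟩, h5, h6⟩

theorem hFS (hEF : StEF) : StFS := by
  obtain ⟨η, ε₀, hη, hη1, hε₀, hE⟩ := hEF
  refine ⟨η, hη, by linarith, ?_⟩
  intro κ hκ hκ1 hCG κ' hκ'
  rcases lt_or_ge κ κ' with hlt | hle
  · refine ⟨1, 1, 2, one_pos, one_pos, ?_⟩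
    intro x y a b w hx _ _ h1 h2 _
    exfalso
    have hx1 : (1 : ℝ) < x := by linarith
    have h3 : (x : ℝ) ^ κ < (x : ℝ) ^ κ' := Real.rpow_lt_rpow_of_exponent_lt hx1 hlt
    linarith
  · obtain ⟨c, N₀, hc, hN₀, hEc⟩ := hE (κ' / 2) (by linarith) (by linarith)
    obtain ⟨ε', hε', hCε⟩ := hCG c hc
    obtain ⟨C, x₀, hC, hx₀, hCx⟩ := hCε (η * κ') (by positivity) (by nlinarith)
    refine ⟨min ε₀ ε', C, max x₀ (max (N₀ ^ 4) 2), lt_min hε₀ hε', hC, ?_⟩
    intro x y a b w hx hcov hby hw1 hw2 hon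
    have hxx₀ : x₀ ≤ x := le_trans (le_max_left _ _) hx
    have hxN : N₀ ^ 4 ≤ (x : ℝ) :=
      le_trans (le_trans (le_max_left _ _) (le_max_right _ _)) hx
    have hx2 : (2 : ℝ) ≤ x := le_trans (le_trans (le_max_right _ _) (le_max_right _ _)) hx
    have hx1 : (1 : ℝ) ≤ x := by linarith
    have hx0 : (0 : ℝ) ≤ x := by linarith
    have hw1' : 1 ≤ w := by
      have : (1 : ℝ) ≤ (x : ℝ) ^ κ' := Real.one_le_rpow hx1 hκ'.le
      linarith
    have hw0 : 0 ≤ w := by linarith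
    have hk4 : (x : ℝ) ^ κ ≤ (x : ℝ) ^ (1 / 4 : ℝ) :=
      Real.rpow_le_rpow_of_exponent_le hx1 hκ1
    have hw4 : w ≤ (x : ℝ) ^ (1 / 4 : ℝ) := le_trans hw2 hk4
    have hwx : w ≤ x := by
      have : (x : ℝ) ^ (1 / 4 : ℝ) ≤ (x : ℝ) ^ (1 : ℝ) :=
        Real.rpow_le_rpow_of_exponent_le hx1 (by norm_num)
      rw [Real.rpow_one] at this
      linarith
    have hms : ms (On x (fun p => a p - b)) (w ^ η) w = onSum a b (w ^ η) w :=
      FS_ms_on x a b (w ^ η) w hwx hw0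
    have hms0 : ms (On x (fun p => a p - b)) (w ^ η) w ≤ ε₀ := by
      rw [hms]
      exact le_trans hon (min_le_left _ _)
    have hms1 : ms (On x (fun p => a p - b)) (w ^ η) w ≤ ε' := by
      rw [hms]
      exact le_trans hon (min_le_right _ _)
    have hprime : ∀ p ∈ On x (fun p => a p - (b : ℤ)), p.Prime := by
      intro p hp
      unfold On at hp
      rw [Finset.mem_filter] at hp
      exact hp.2.1
    have hN4 : N₀ ≤ (x : ℝ) ^ (1 / 4 : ℝ) := by
      have h0 : (0 : ℝ) ≤ N₀ := by linarith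
      have h1 : N₀ = (N₀ ^ 4) ^ (1 / 4 : ℝ) := by
        rw [← Real.rpow_natCast, ← Real.rpow_mul h0]
        norm_num
      rw [h1]
      exact Real.rpow_le_rpow (by positivity) hxN (by norm_num)
    have hDens : Dens x (fun p => a p - b) c := by
      intro N hN1 hN2
      have hNN : N₀ ≤ N := le_trans hN4 hN1
      have hN0 : (0 : ℝ) ≤ N := Nat.cast_nonneg N
      refine hEc _ N w hprime hNN ?_ (le_trans hw4 hN1) hms0
      have h1 : (N : ℝ) ^ (κ' / 2) ≤ ((x : ℝ) ^ 2) ^ (κ' / 2) :=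
        Real.rpow_le_rpow hN0 hN2 (by linarith)
      have h2 : ((x : ℝ) ^ 2) ^ (κ' / 2) = (x : ℝ) ^ κ' := by
        rw [← Real.rpow_natCast, ← Real.rpow_mul hx0]
        congr 1
        push_cast
        ring
      rw [h2] at h1
      exact le_trans h1 hw1
    refine hCx x y a b (w ^ η) hxx₀ hcov hby ?_ ?_ hDens ?_
    · have h1 : ((x : ℝ) ^ κ') ^ η ≤ w ^ η :=
        Real.rpow_le_rpow (by positivity) hw1 hη.le
      have h2 : ((x : ℝ) ^ κ') ^ η = (x : ℝ) ^ (η * κ') := by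
        rw [← Real.rpow_mul hx0]
        congr 1
        ring
      rw [h2] at h1
      exact h1
    · have h1 : w ^ η ≤ w ^ (1 : ℝ) :=
        Real.rpow_le_rpow_of_exponent_le hw1' (by linarith)
      rw [Real.rpow_one] at h1
      exact le_trans h1 hw4
    · have h1 : (w ^ η) ^ 2 ≤ w := by
        have h2 : (w ^ η) ^ 2 = w ^ (η * 2) := by
          rw [Real.rpow_mul hw0]
          norm_cast
        rw [h2]
        have h3 : w ^ (η * 2) ≤ w ^ (1 : ℝ) :=
          Real.rpow_le_rpow_of_exponent_le hw1' (by linarith)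
        rw [Real.rpow_one] at h3
        exact h3
      exact le_trans (FS_ms_mono _ _ _ _ h1) hms1

end Pool.Agent.Helper98.JS
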